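import Pool.Agent.Q216.ZD.Base

set_option autoImplicit false

/-!
Project ZD, statement `S_EQ`: the equivalence with a member of a ball is semi-decidable.
-/

namespace Pool.Agent.Q26.ZD

open Encodable Pool.Agent.Helper227 Pool.Agent.H548R2.Post Pool.Agent.Q216.ZD
open Nat.Partrec (Code)

/-- the graph of the evaluation of programs -/
theorem s1_eval : S1 fun x : Code × ℕ × ℕ => x.2.2 ∈ x.1.eval x.2.1 := by
  refine ⟨fun x n => Code.evaln n x.1 x.2.1 = some x.2.2, ?_, ?_, ?_⟩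
  · have h : Primrec fun x : (Code × ℕ × ℕ) × ℕ => Code.evaln x.2 x.1.1 x.1.2.1 :=
      Nat.Partrec.Code.primrec_evaln.comp
        ((Primrec.snd.pair (Primrec.fst.comp Primrec.fst)).pair
          (Primrec.fst.comp (Primrec.snd.comp Primrec.fst)))
    exact Primrec.eq.comp h
      (Primrec.option_some.comp (Primrec.snd.comp (Primrec.snd.comp Primrec.fst)))
  · intro a m n h hm
    exact Nat.Partrec.Code.evaln_mono h hm
  · intro a
    exact Nat.Partrec.Code.evaln_complete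

/-- the word `x.2.2.2` is reached from `x.2.2.1` in `x.2.1` steps -/
def SP (PS : R → Code × ℕ × List ℕ × List ℕ → Prop) (Y : R) (x : Code × ℕ × List ℕ × List ℕ) :
    Prop :=
  ∃ l : List (List ℕ), l.getD 0 [] = x.2.2.1 ∧ l.getD x.2.1 [] = x.2.2.2 ∧
    ∀ i < x.2.1, ∃ v, l.getD (i + 1) [] = v ++ l.getD i [] ∧ PS Y (x.1, 2 ^ i, l.getD i [], v)

theorem pf_getD' {α β : Type} [Primcodable α] [Primcodable β] (d : β) {f : α → List β}
    {g : α → ℕ} (hf : Primrec f) (hg : Primrec g) : Primrec fun a => (f a).getD (g a) d :=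
  (Primrec.list_getD d).comp hf hg

theorem pf_pow2 {α : Type} [Primcodable α] {g : α → ℕ} (hg : Primrec g) :
    Primrec fun a => 2 ^ g a := by
  have h : Primrec fun n : ℕ => 2 ^ n := by
    refine (Primrec.nat_rec₁ (α := ℕ) (f := fun _ y => 2 * y) 1
      (Primrec.nat_mul.comp (Primrec.const 2) Primrec.snd)).of_eq fun n => ?_
    induction n with
    | zero => rfl
    | succ n ih => simp only at ih ⊢; rw [ih, pow_succ, mul_comm]
  exact h.comp hg

theorem us_SP {PS : R → Code × ℕ × List ℕ × List ℕ → Prop} (hP : US PS) : US (SP PS) := by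
  unfold SP
  refine US.ex (α := Code × ℕ × List ℕ × List ℕ) (β := List (List ℕ))
    (P := fun Y x l => l.getD 0 [] = x.2.2.1 ∧ l.getD x.2.1 [] = x.2.2.2 ∧
      ∀ i < x.2.1, ∃ v, l.getD (i + 1) [] = v ++ l.getD i [] ∧ PS Y (x.1, 2 ^ i, l.getD i [], v)) ?_
  refine US.and ?_ (US.and ?_ ?_)
  · refine US.of_prim (Primrec.eq.comp (pf_getD' [] Primrec.snd (Primrec.const 0)) ?_)
    exact Primrec.fst.comp (Primrec.snd.comp (Primrec.snd.comp Primrec.fst))
  · refine US.of_prim (Primrec.eq.comp (pf_getD' [] Primrec.snd ?_) ?_)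
    · exact Primrec.fst.comp (Primrec.snd.comp Primrec.fst)
    · exact Primrec.snd.comp (Primrec.snd.comp (Primrec.snd.comp Primrec.fst))
  · refine US.all_lt (α := (Code × ℕ × List ℕ × List ℕ) × List (List ℕ))
      (P := fun Y x i => ∃ v, x.2.getD (i + 1) [] = v ++ x.2.getD i [] ∧
        PS Y (x.1.1, 2 ^ i, x.2.getD i [], v)) (f := fun x => x.1.2.1) ?_
        (Primrec.fst.comp (Primrec.snd.comp Primrec.fst))
    refine US.ex (α := ((Code × ℕ × List ℕ × List ℕ) × List (List ℕ)) × ℕ) (β := List ℕ)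
      (P := fun Y x v => x.1.2.getD (x.2 + 1) [] = v ++ x.1.2.getD x.2 [] ∧
        PS Y (x.1.1.1, 2 ^ x.2, x.1.2.getD x.2 [], v)) ?_
    have hl : Primrec fun x : (((Code × ℕ × List ℕ × List ℕ) × List (List ℕ)) × ℕ) × List ℕ =>
        x.1.1.2 := Primrec.snd.comp (Primrec.fst.comp Primrec.fst)
    have hi : Primrec fun x : (((Code × ℕ × List ℕ × List ℕ) × List (List ℕ)) × ℕ) × List ℕ =>
        x.1.2 := Primrec.snd.comp Primrec.fst
    refine US.and (US.of_prim (Primrec.eq.comp (pf_getD' [] hl (Primrec.succ.comp hi))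
      (Primrec.list_append.comp Primrec.snd (pf_getD' [] hl hi)))) ?_
    refine hP.comp (f := fun x : (((Code × ℕ × List ℕ × List ℕ) × List (List ℕ)) × ℕ) × List ℕ =>
      (x.1.1.1.1, 2 ^ x.1.2, x.1.1.2.getD x.1.2 [], x.2)) ?_
    exact (Primrec.fst.comp (Primrec.fst.comp (Primrec.fst.comp Primrec.fst))).pair
      ((pf_pow2 hi).pair ((pf_getD' [] hl hi).pair Primrec.snd))

theorem sp_iff {L : ℕ} {T : ℕ → R → R} {PS : R → Code × ℕ × List ℕ × List ℕ → Prop} {a : Code}
    {Y : R} (h : ∀ (r : ℕ) (u w : List ℕ), Wd L u → (PS Y (a, r, u, w) ↔ w = wsel L T r (act T u Y)))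
    (n : ℕ) (u w : List ℕ) (hu : Wd L u) : SP PS Y (a, n, u, w) ↔ w = wn L T n (act T u Y) ++ u := by
  constructor
  · rintro ⟨l, h0, hn, hs⟩
    simp only at h0 hn hs
    have key : ∀ i ≤ n, l.getD i [] = wn L T i (act T u Y) ++ u := by
      intro i
      induction i with
      | zero => intro _; rw [h0]; rfl
      | succ i ih =>
        intro hi
        have h1 := ih (by omega)
        obtain ⟨v, h2, h3⟩ := hs i (by omega)
        rw [h1] at h2 h3
        have hw : Wd L (wn L T i (act T u Y) ++ u) := wd_append (mem_WL.1 (wn_mem i _)).1 hu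
        rw [h _ _ _ hw, act_append, ← sn_eq] at h3
        rw [h2, h3, ← List.append_assoc]
        rfl
    rw [← hn, key n le_rfl]
  · rintro rfl
    have hg : ∀ i ≤ n, ((List.range (n + 1)).map fun i => wn L T i (act T u Y) ++ u).getD i [] =
        wn L T i (act T u Y) ++ u := by
      intro i hi
      rw [List.getD_eq_getElem?_getD, List.getElem?_map, List.getElem?_range (by omega)]
      rfl
    refine ⟨(List.range (n + 1)).map fun i => wn L T i (act T u Y) ++ u, ?_, ?_, ?_⟩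
    · rw [hg 0 (Nat.zero_le _)]; rfl
    · simp only
      rw [hg n le_rfl]
    · intro i hi
      simp only at hi ⊢
      rw [hg i (by omega), hg (i + 1) (by omega)]
      refine ⟨wsel L T (2 ^ i) (sn L T i (act T u Y)), ?_, ?_⟩
      · rw [← List.append_assoc]; rfl
      · have hw : Wd L (wn L T i (act T u Y) ++ u) := wd_append (mem_WL.1 (wn_mem i _)).1 hu
        rw [h _ _ _ hw, act_append, ← sn_eq]

/-- the relation -/
def PE (L : ℕ) (PS : R → Code × ℕ × List ℕ × List ℕ → Prop) (Y : R) (x : Code × ℕ × List ℕ) :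
    Prop :=
  ∃ y : List ℕ × ℕ × List ℕ × List ℕ, (Wd L y.1 ∧ y.1.length ≤ x.2.1) ∧
    SP PS Y (x.1, y.2.1, x.2.2, y.2.2.1) ∧ SP PS Y (x.1, y.2.1, y.1, y.2.2.2) ∧
      1 ∈ x.1.eval (encode (iv y.2.2.2 ++ y.2.2.1))

theorem pf_iv : Primrec iv := by
  have hx : Primrec fun c : ℕ => c ^^^ 1 := by
    have h : ∀ c : ℕ, c ^^^ 1 = if c % 2 = 0 then c + 1 else c - 1 := by
      intro c
      rcases Nat.even_or_odd c with h | h
      · rw [Nat.xor_one_of_even h, if_pos (Nat.even_iff.1 h)]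
      · rw [Nat.xor_one_of_odd h, if_neg (by rw [Nat.odd_iff.1 h]; omega)]
    refine Primrec.of_eq (f := fun c : ℕ => if c % 2 = 0 then c + 1 else c - 1) ?_
      fun c => (h c).symm
    refine Primrec.ite ?_ Primrec.succ Primrec.pred
    exact Primrec.eq.comp (Primrec.nat_mod.comp Primrec.id (Primrec.const 2)) (Primrec.const 0)
  unfold iv
  exact Primrec.list_reverse.comp (Primrec.list_map Primrec.id (hx.comp Primrec.snd))

theorem pp_wd (L : ℕ) : PrimrecPred fun w : List ℕ => Wd L w := by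
  unfold Wd
  exact PP.all_mem (α := List ℕ) (p := fun _ c => c < L)
    (Primrec.nat_lt.comp Primrec.snd (Primrec.const L)) Primrec.id

theorem us_PE (L : ℕ) {PS : R → Code × ℕ × List ℕ × List ℕ → Prop} (hP : US PS) :
    US (PE L PS) := by
  unfold PE
  refine US.ex (α := Code × ℕ × List ℕ) (β := List ℕ × ℕ × List ℕ × List ℕ)
    (P := fun Y x y => (Wd L y.1 ∧ y.1.length ≤ x.2.1) ∧
    SP PS Y (x.1, y.2.1, x.2.2, y.2.2.1) ∧ SP PS Y (x.1, y.2.1, y.1, y.2.2.2) ∧
      1 ∈ x.1.eval (encode (iv y.2.2.2 ++ y.2.2.1))) ?_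
  have ha : Primrec fun x : (Code × ℕ × List ℕ) × List ℕ × ℕ × List ℕ × List ℕ => x.1.1 :=
    Primrec.fst.comp Primrec.fst
  have hb : Primrec fun x : (Code × ℕ × List ℕ) × List ℕ × ℕ × List ℕ × List ℕ => x.1.2.1 :=
    Primrec.fst.comp (Primrec.snd.comp Primrec.fst)
  have hu : Primrec fun x : (Code × ℕ × List ℕ) × List ℕ × ℕ × List ℕ × List ℕ => x.1.2.2 :=
    Primrec.snd.comp (Primrec.snd.comp Primrec.fst)
  have hv : Primrec fun x : (Code × ℕ × List ℕ) × List ℕ × ℕ × List ℕ × List ℕ => x.2.1 :=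
    Primrec.fst.comp Primrec.snd
  have hn : Primrec fun x : (Code × ℕ × List ℕ) × List ℕ × ℕ × List ℕ × List ℕ => x.2.2.1 :=
    Primrec.fst.comp (Primrec.snd.comp Primrec.snd)
  have hw : Primrec fun x : (Code × ℕ × List ℕ) × List ℕ × ℕ × List ℕ × List ℕ => x.2.2.2.1 :=
    Primrec.fst.comp (Primrec.snd.comp (Primrec.snd.comp Primrec.snd))
  have hw' : Primrec fun x : (Code × ℕ × List ℕ) × List ℕ × ℕ × List ℕ × List ℕ => x.2.2.2.2 :=
    Primrec.snd.comp (Primrec.snd.comp (Primrec.snd.comp Primrec.snd))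
  refine US.and (US.of_prim (PrimrecPred.and ((pp_wd L).comp hv)
    (Primrec.nat_le.comp (Primrec.list_length.comp hv) hb))) (US.and ?_ (US.and ?_ (US.of_s1 ?_)))
  · exact (us_SP hP).comp (ha.pair (hn.pair (hu.pair hw)))
  · exact (us_SP hP).comp (ha.pair (hn.pair (hv.pair hw')))
  · exact s1_eval.comp (ha.pair ((Primrec.encode.comp
      (Primrec.list_append.comp (pf_iv.comp hw') hw)).pair (Primrec.const 1)))

theorem t_EQ (_h1 : S_ACT) (h2 : S_SEL) : S_EQ := by
  intro ps L T hA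
  obtain ⟨PS, hP, hS⟩ := h2 ps L T hA
  refine ⟨PE L PS, us_PE L hP, fun a Y hD b u hu => ?_⟩
  have h := hS a Y hD
  have hone : ∀ W : List ℕ, Wd L W → (1 ∈ a.eval (encode W) ↔ act T W Y = Y) := by
    intro W hW
    rw [hD W [] hW wd_nil 1]
    simp only [act_nil]
    by_cases hc : act T W Y = Y
    · simp [hc]
    · simp [hc]
  constructor
  · rintro ⟨⟨v, n, w, w'⟩, ⟨hv, hvb⟩, h3, h4, h5⟩
    simp only at hv hvb h3 h4 h5
    rw [sp_iff h n u w hu] at h3
    rw [sp_iff h n v w' hv] at h4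
    have hw : Wd L w := h3 ▸ wd_append (mem_WL.1 (wn_mem n _)).1 hu
    have hw' : Wd L w' := h4 ▸ wd_append (mem_WL.1 (wn_mem n _)).1 hv
    rw [hone _ (wd_append (wd_iv hA.ev hw') hw), act_append] at h5
    have h6 : act T w Y = act T w' Y := by
      have := congrArg (act T w') h5
      rwa [act_act_iv hA hw'] at this
    refine ⟨act T v Y, ⟨v, mem_WL.2 ⟨hv, hvb⟩, rfl⟩, n, ?_⟩
    rw [sn_eq, sn_eq, ← act_append, ← act_append, ← h3, ← h4, h6]
  · rintro ⟨Z, ⟨v, hv, rfl⟩, n, hn⟩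
    obtain ⟨hv, hvb⟩ := mem_WL.1 hv
    have hw : Wd L (wn L T n (act T u Y) ++ u) := wd_append (mem_WL.1 (wn_mem n _)).1 hu
    have hw' : Wd L (wn L T n (act T v Y) ++ v) := wd_append (mem_WL.1 (wn_mem n _)).1 hv
    refine ⟨(v, n, wn L T n (act T u Y) ++ u, wn L T n (act T v Y) ++ v), ⟨hv, hvb⟩,
      (sp_iff h n u _ hu).2 rfl, (sp_iff h n v _ hv).2 rfl, ?_⟩
    simp only
    rw [hone _ (wd_append (wd_iv hA.ev hw') hw), act_append]
    have h6 : act T (wn L T n (act T u Y) ++ u) Y = act T (wn L T n (act T v Y) ++ v) Y := by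
      rw [act_append, act_append, ← sn_eq, ← sn_eq, hn]
    rw [h6, act_iv_act hA hw']

end Pool.Agent.Q26.ZD
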