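import Pool.Agent.Q216.ZD.Base

set_option autoImplicit false

/-!
Project ZD, statement `S_BACK`: total programs for the way back.
-/

namespace Pool.Agent.Q26.ZD

open Encodable Pool.Agent.Helper227 Pool.Agent.H548R2.Post Pool.Agent.Q216.ZD
open Nat.Partrec (Code)
open Pool.Agent.TH769.TP (Via lab Unb)

/-! ## The leftmost path -/

/-- the initial segments of the leftmost path -/
def lpn (Z : R) : ℕ → List Bool
  | 0 => []
  | j + 1 => lpn Z j ++ [!Z (encode (lpn Z j ++ [false]))]

/-- the leftmost path -/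
def lp (Z : R) (j : ℕ) : Bool := !Z (encode (lpn Z j ++ [false]))

/-- the oracle without its label -/
def sh (n : ℕ) (O : R) : R := fun j => O (n + 2 + j)

theorem pre_succ (X : R) (n : ℕ) : pre X (n + 1) = pre X n ++ [X n] := by
  simp [pre, List.range_succ]

theorem pre_lp (Z : R) (j : ℕ) : pre (lp Z) j = lpn Z j := by
  induction j with
  | zero => rfl
  | succ j ih => rw [pre_succ, ih]; rfl

theorem pre_take (X : R) {s t : ℕ} (h : s ≤ t) : (pre X t).take s = pre X s := by
  simp [pre, ← List.map_take, List.take_range, h]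

theorem pre_eq_iff (X : R) (σ : List Bool) :
    pre X σ.length = σ ↔ ∀ i < σ.length, X i = σ.getD i false := by
  constructor
  · intro h i hi
    rw [List.getD_eq_getElem?_getD, ← h, pre_getElem? _ _ _ hi]
    rfl
  · intro h
    refine List.ext_getElem (by simp) fun i h1 h2 => ?_
    rw [getElem_pre, h i h2, List.getD_eq_getElem?_getD, List.getElem?_eq_getElem h2]
    rfl

theorem lps_iff (Z : R) (σ : List Bool) :
    (∀ i < σ.length, Z (encode (σ.take i ++ [false])) = !(σ.getD i false)) ↔
      pre (lp Z) σ.length = σ := by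
  constructor
  · intro h
    have key : ∀ i ≤ σ.length, lpn Z i = σ.take i := by
      intro i
      induction i with
      | zero => intro _; rfl
      | succ i ih =>
        intro hi
        show lpn Z i ++ [!Z (encode (lpn Z i ++ [false]))] = _
        rw [ih (by omega), h i (by omega), Bool.not_not, List.getD_eq_getElem?_getD,
          List.getElem?_eq_getElem (by omega)]
        exact List.take_concat_get' _ _ _
    rw [pre_lp, key _ le_rfl, List.take_length]
  · intro h i hi
    have h1 : σ.take i = lpn Z i := by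
      rw [← h, pre_take _ hi.le, pre_lp]
    have h2 := (pre_eq_iff _ _).1 h i hi
    rw [h1, ← h2]
    unfold lp
    rw [Bool.not_not]

theorem us_lps : US fun O (x : ℕ × List Bool) => pre (lp (sh x.1 O)) x.2.length = x.2 := by
  refine US.of_eq (P := fun O (x : ℕ × List Bool) => ∀ i < x.2.length,
    O (x.1 + 2 + encode (x.2.take i ++ [false])) = !(x.2.getD i false)) ?_
    fun O x => lps_iff (sh x.1 O) x.2
  refine US.all_lt (α := ℕ × List Bool)
    (P := fun O x i => O (x.1 + 2 + encode (x.2.take i ++ [false])) = !(x.2.getD i false))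
    (f := fun x => x.2.length) ?_ (Primrec.list_length.comp Primrec.snd)
  have hn : Primrec fun x : (ℕ × List Bool) × ℕ => x.1.1 := Primrec.fst.comp Primrec.fst
  have hs : Primrec fun x : (ℕ × List Bool) × ℕ => x.1.2 := Primrec.snd.comp Primrec.fst
  have hi : Primrec fun x : (ℕ × List Bool) × ℕ => x.2 := Primrec.snd
  refine US.query.comp (f := fun x : (ℕ × List Bool) × ℕ =>
    (x.1.1 + 2 + encode (x.1.2.take x.2 ++ [false]), !(x.1.2.getD x.2 false))) ?_
  refine Primrec.pair ?_ (Primrec.not.comp ((Primrec.list_getD false).comp hs hi))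
  refine Primrec.nat_add.comp (Primrec.nat_add.comp hn (Primrec.const 2)) (Primrec.encode.comp ?_)
  exact Primrec.list_append.comp (Pool.Agent.TH769.CD.pf_take hi hs) (Primrec.const [false])

theorem comp_lp {α : Type} [Primcodable α] {P : R → α → Prop} (hP : US P) :
    US fun O (x : ℕ × α) => P (lp (sh x.1 O)) x.2 := by
  obtain ⟨E, hE, mE, eE⟩ := hP
  refine US.of_eq (P := fun O (x : ℕ × α) => ∃ σ : List Bool,
    pre (lp (sh x.1 O)) σ.length = σ ∧ E (σ, x.2)) ?_ ?_
  · refine US.ex (α := ℕ × α) (β := List Bool)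
      (P := fun O x σ => pre (lp (sh x.1 O)) σ.length = σ ∧ E (σ, x.2)) ?_
    refine US.and ?_ (US.of_s1 (hE.comp (Primrec.snd.pair (Primrec.snd.comp Primrec.fst))))
    exact us_lps.comp (f := fun x : (ℕ × α) × List Bool => (x.1.1, x.2))
      ((Primrec.fst.comp Primrec.fst).pair Primrec.snd)
  · intro O x
    rw [eE]
    constructor
    · rintro ⟨σ, h1, h2⟩
      exact ⟨σ.length, by rw [h1]; exact h2⟩
    · rintro ⟨s, hs⟩
      exact ⟨_, by rw [length_pre], hs⟩

theorem lp_mem {B : Set R} (hB : B.Finite) (hne : B.Nonempty) : lp (Zt B) ∈ B := by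
  have h1 : ∀ j, ∃ Y ∈ B, pre Y j = pre (lp (Zt B)) j := by
    intro j
    induction j with
    | zero =>
      obtain ⟨Y, hY⟩ := hne
      exact ⟨Y, hY, rfl⟩
    | succ j ih =>
      obtain ⟨Y, hY, hj⟩ := ih
      by_cases hZ : Zt B (encode (lpn (Zt B) j ++ [false])) = true
      · obtain ⟨Y', hY', h2⟩ := zt_encode.1 hZ
        refine ⟨Y', hY', ?_⟩
        rw [List.length_append, ← pre_lp, length_pre] at h2
        simp only [List.length_singleton] at h2
        rw [h2, pre_succ]
        have : lp (Zt B) j = false := by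
          unfold lp
          rw [hZ]
          rfl
        rw [this]
      · refine ⟨Y, hY, ?_⟩
        rw [pre_succ, pre_succ, hj]
        have h3 : lp (Zt B) j = true := by
          unfold lp
          rw [Bool.not_eq_true] at hZ
          rw [hZ]
          rfl
        have h4 : Y j = true := by
          by_contra hc
          rw [Bool.not_eq_true] at hc
          refine hZ (zt_encode.2 ⟨Y, hY, ?_⟩)
          rw [List.length_append, ← pre_lp, length_pre]
          simp only [List.length_singleton]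
          rw [pre_succ, hj, hc]
        rw [h3, h4]
  by_contra hc
  have h2 : ∀ Y : R, Y ∈ B → ∃ i, Y i ≠ lp (Zt B) i := by
    intro Y hY
    by_contra h
    push Not at h
    exact hc (funext h ▸ hY)
  choose! f hf using h2
  obtain ⟨N, hN⟩ := (hB.image f).bddAbove
  obtain ⟨Y, hY, h3⟩ := h1 (N + 1)
  refine hf Y hY ?_
  have h4 : f Y ≤ N := hN ⟨Y, hY, rfl⟩
  have h5 : (pre Y (N + 1))[f Y]? = (pre (lp (Zt B)) (N + 1))[f Y]? := by rw [h3]
  rw [pre_getElem? _ _ _ (by omega), pre_getElem? _ _ _ (by omega)] at h5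
  exact Option.some.inj h5

/-! ## The program -/

/-- the finite set with the parameter `W` -/
def AW (L : ℕ) (T : ℕ → R → R) (W : List (List ℕ)) (X : R) : Set R :=
  {Y | ∃ w ∈ W, Wd L w ∧ act T w X = Y}

/-- the graph -/
def PB (L : ℕ) (T : ℕ → R → R) (O : R) (x : (ℕ × List (List ℕ)) × ℕ × Bool) : Prop :=
  (x.2.1 < x.1.1 ∧ x.2.2 = false) ∨ (x.2.1 = x.1.1 ∧ x.2.2 = true) ∨
    (x.1.1 < x.2.1 ∧ ((x.2.2 = true ∧ ∃ w ∈ x.1.2, Wd L w ∧
        ∀ i < (sg (x.2.1 - x.1.1 - 1)).length, Wd L w ∧ act T w (lp (sh x.1.1 O)) i =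
          (sg (x.2.1 - x.1.1 - 1)).getD i false) ∨
      (x.2.2 = false ∧ ∀ w ∈ x.1.2, ¬ Wd L w ∨
        ∃ i ∈ List.range (sg (x.2.1 - x.1.1 - 1)).length, Wd L w ∧
          act T w (lp (sh x.1.1 O)) i = !((sg (x.2.1 - x.1.1 - 1)).getD i false))))

theorem pb_iff {L : ℕ} {T : ℕ → R → R} (O : R) (n : ℕ) (W : List (List ℕ)) (m : ℕ) (b : Bool) :
    PB L T O ((n, W), m, b) ↔ lab n (Zt (AW L T W (lp (sh n O)))) m = b := by
  unfold PB lab
  simp only
  rcases lt_trichotomy m n with h | h | h
  · rw [if_pos h]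
    have h1 : ¬ m = n := by omega
    have h2 : ¬ n < m := by omega
    simp only [h, h1, h2, true_and, false_and, or_false]
    exact eq_comm
  · subst h
    simp only [lt_irrefl, if_false, if_true, false_and, true_and, false_or, or_false]
    exact eq_comm
  · have h1 : ¬ m = n := by omega
    have h2 : ¬ m < n := by omega
    rw [if_neg h2, if_neg h1]
    simp only [h, h1, h2, true_and, false_and, false_or]
    set σ := sg (m - n - 1) with hσ
    set X := lp (sh n O) with hX
    have hz : Zt (AW L T W X) (m - n - 1) = true ↔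
        ∃ w ∈ W, Wd L w ∧ ∀ i < σ.length, Wd L w ∧ act T w X i = σ.getD i false := by
      rw [zt_iff, ← hσ]
      constructor
      · rintro ⟨Y, ⟨w, hw, hwd, rfl⟩, h3⟩
        exact ⟨w, hw, hwd, fun i hi => ⟨hwd, (pre_eq_iff _ _).1 h3 i hi⟩⟩
      · rintro ⟨w, hw, hwd, h3⟩
        exact ⟨_, ⟨w, hw, hwd, rfl⟩, (pre_eq_iff _ _).2 fun i hi => (h3 i hi).2⟩
    have hz' : Zt (AW L T W X) (m - n - 1) = false ↔ ∀ w ∈ W, ¬ Wd L w ∨
        ∃ i ∈ List.range σ.length, Wd L w ∧ act T w X i = !(σ.getD i false) := by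
      rw [← Bool.not_eq_true, hz]
      push Not
      refine forall_congr' fun w => forall_congr' fun hw => ?_
      by_cases hwd : Wd L w
      · simp only [hwd, forall_true_left, not_true_eq_false, false_or, true_and, List.mem_range]
        refine exists_congr fun i => and_congr_right fun _ => ?_
        generalize act T w X i = p
        generalize σ.getD i false = q
        cases p <;> cases q <;> simp
      · simp [hwd]
    cases b with
    | true =>
      simp only [true_and, Bool.true_eq_false, false_and, or_false]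
      exact hz.symm
    | false =>
      simp only [true_and, Bool.false_eq_true, false_and, false_or]
      exact hz'.symm

theorem pp_wdB (L : ℕ) : PrimrecPred fun w : List ℕ => Wd L w := by
  unfold Wd
  exact PP.all_mem (α := List ℕ) (p := fun _ c => c < L)
    (Primrec.nat_lt.comp Primrec.snd (Primrec.const L)) Primrec.id

theorem pf_sg : Primrec sg := by
  unfold sg
  exact Primrec.option_getD.comp Primrec.decode (Primrec.const [])

theorem us_PB {L : ℕ} {T : ℕ → R → R}
    (hT : US fun X (x : List ℕ × ℕ × Bool) => Wd L x.1 ∧ act T x.1 X x.2.1 = x.2.2) :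
    US (PB L T) := by
  have hT' := comp_lp hT
  have hn : Primrec fun x : (ℕ × List (List ℕ)) × ℕ × Bool => x.1.1 :=
    Primrec.fst.comp Primrec.fst
  have hW : Primrec fun x : (ℕ × List (List ℕ)) × ℕ × Bool => x.1.2 :=
    Primrec.snd.comp Primrec.fst
  have hm : Primrec fun x : (ℕ × List (List ℕ)) × ℕ × Bool => x.2.1 :=
    Primrec.fst.comp Primrec.snd
  have hb : Primrec fun x : (ℕ × List (List ℕ)) × ℕ × Bool => x.2.2 :=
    Primrec.snd.comp Primrec.snd
  have hs : Primrec fun x : (ℕ × List (List ℕ)) × ℕ × Bool => sg (x.2.1 - x.1.1 - 1) :=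
    pf_sg.comp (Primrec.nat_sub.comp (Primrec.nat_sub.comp hm hn) (Primrec.const 1))
  unfold PB
  refine US.or (US.of_prim (PrimrecPred.and (Primrec.nat_lt.comp hm hn)
    (Primrec.eq.comp hb (Primrec.const false)))) (US.or (US.of_prim (PrimrecPred.and
    (Primrec.eq.comp hm hn) (Primrec.eq.comp hb (Primrec.const true)))) (US.and
    (US.of_prim (Primrec.nat_lt.comp hn hm)) (US.or (US.and (US.of_prim
    (Primrec.eq.comp hb (Primrec.const true))) ?_) (US.and (US.of_prim
    (Primrec.eq.comp hb (Primrec.const false))) ?_))))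
  · refine US.ex_mem (α := (ℕ × List (List ℕ)) × ℕ × Bool) (β := List ℕ)
      (P := fun O x w => Wd L w ∧
        ∀ i < (sg (x.2.1 - x.1.1 - 1)).length, Wd L w ∧ act T w (lp (sh x.1.1 O)) i =
          (sg (x.2.1 - x.1.1 - 1)).getD i false) (f := fun x => x.1.2) ?_ hW
    refine US.and (US.of_prim ((pp_wdB L).comp Primrec.snd)) ?_
    refine US.all_lt (α := ((ℕ × List (List ℕ)) × ℕ × Bool) × List ℕ)
      (P := fun O x i => Wd L x.2 ∧ act T x.2 (lp (sh x.1.1.1 O)) i =
          (sg (x.1.2.1 - x.1.1.1 - 1)).getD i false)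
      (f := fun x => (sg (x.1.2.1 - x.1.1.1 - 1)).length) ?_
      (Primrec.list_length.comp (hs.comp Primrec.fst))
    exact hT'.comp (f := fun x : (((ℕ × List (List ℕ)) × ℕ × Bool) × List ℕ) × ℕ =>
      (x.1.1.1.1, (x.1.2, (x.2, (sg (x.1.1.2.1 - x.1.1.1.1 - 1)).getD x.2 false))))
      ((hn.comp (Primrec.fst.comp Primrec.fst)).pair ((Primrec.snd.comp Primrec.fst).pair
        (Primrec.snd.pair ((Primrec.list_getD false).comp
          (hs.comp (Primrec.fst.comp Primrec.fst)) Primrec.snd))))
  · refine US.all_mem (α := (ℕ × List (List ℕ)) × ℕ × Bool) (β := List ℕ)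
      (P := fun O x w => ¬ Wd L w ∨
        ∃ i ∈ List.range (sg (x.2.1 - x.1.1 - 1)).length, Wd L w ∧
          act T w (lp (sh x.1.1 O)) i = !((sg (x.2.1 - x.1.1 - 1)).getD i false))
      (f := fun x => x.1.2) ?_ hW
    refine US.or (US.of_prim ((pp_wdB L).not.comp Primrec.snd)) ?_
    refine US.ex_mem (α := ((ℕ × List (List ℕ)) × ℕ × Bool) × List ℕ) (β := ℕ)
      (P := fun O x i => Wd L x.2 ∧ act T x.2 (lp (sh x.1.1.1 O)) i =
          !((sg (x.1.2.1 - x.1.1.1 - 1)).getD i false))
      (f := fun x => List.range (sg (x.1.2.1 - x.1.1.1 - 1)).length) ?_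
      (Primrec.list_range.comp (Primrec.list_length.comp (hs.comp Primrec.fst)))
    exact hT'.comp (f := fun x : (((ℕ × List (List ℕ)) × ℕ × Bool) × List ℕ) × ℕ =>
      (x.1.1.1.1, (x.1.2, (x.2, !((sg (x.1.1.2.1 - x.1.1.1.1 - 1)).getD x.2 false)))))
      ((hn.comp (Primrec.fst.comp Primrec.fst)).pair ((Primrec.snd.comp Primrec.fst).pair
        (Primrec.snd.pair (Primrec.not.comp ((Primrec.list_getD false).comp
          (hs.comp (Primrec.fst.comp Primrec.fst)) Primrec.snd)))))

theorem sh_lab (n : ℕ) (Z : R) : sh n (lab (n + 1) Z) = Z := by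
  funext j
  unfold sh lab
  rw [if_neg (by omega), if_neg (by omega)]
  congr 1
  omega

theorem t_BACK (h0 : S_PROG) (h1 : S_ACT) : S_BACK := by
  classical
  intro ps L T hA
  obtain ⟨I, hI, hV⟩ := h0 (ℕ × List (List ℕ)) (PB L T) (us_PB (h1 ps L T hA))
  refine ⟨fun c => I ((decode (α := ℕ × List (List ℕ)) c).getD (0, [])), ?_, ?_, ?_⟩
  · exact (hI.comp (Primrec.option_getD.comp Primrec.decode (Primrec.const _))).to_comp
  · intro c X
    exact ⟨_, hV _ X _ fun m b => pb_iff X _ _ m b⟩
  · intro n X A B hAf _ hAo hBf hBn hBo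
    set b0 := lp (Zt B) with hb0
    have hb : InOrb L T X b0 := hBo b0 (lp_mem hBf hBn)
    have h2 : ∀ Y : R, ∃ w : List ℕ, Y ∈ A → Wd L w ∧ act T w b0 = Y := by
      intro Y
      by_cases hY : Y ∈ A
      · obtain ⟨w, hw, h⟩ := (hb.symm hA).trans (hAo Y hY)
        exact ⟨w, fun _ => ⟨hw, h⟩⟩
      · exact ⟨[], fun h => absurd h hY⟩
    choose f hf using h2
    have h3 : AW L T (hAf.toFinset.toList.map f) b0 = A := by
      ext Y
      constructor
      · rintro ⟨w, hw, -, rfl⟩
        obtain ⟨Y', hY', rfl⟩ := List.mem_map.1 hw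
        rw [Finset.mem_toList, Set.Finite.mem_toFinset] at hY'
        rw [(hf Y' hY').2]
        exact hY'
      · intro hY
        exact ⟨f Y, List.mem_map.2 ⟨Y, by rw [Finset.mem_toList, Set.Finite.mem_toFinset]; exact hY,
          rfl⟩, (hf Y hY).1, (hf Y hY).2⟩
    refine ⟨encode (n, hAf.toFinset.toList.map f), ?_⟩
    simp only [encodek, Option.getD_some]
    refine hV _ _ _ fun m b => ?_
    rw [pb_iff, sh_lab, ← hb0, h3]

end Pool.Agent.Q26.ZD
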